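import Pool.Agent.Work.MP_db9399_ow.Interface

set_option autoImplicit false

namespace Pool.Agent.Work.MP_db9399_ow.helper44

open Finset Classical
open Pool.Agent.Work.MP_db9399_all (nb mis pr DepOnI)
open Pool.Agent.Work.MP_db9399_en (ex ex_mono ex_const_mul card_pos chern_up)

universe u

/-- the expectation of a function of one coordinate -/
theorem ex_coord {J : Type u} [Fintype J] {M : ℕ} (hM : 0 < M) (y : J) (φ : Fin M → ℝ) :
    ex (fun ω : J → Fin M => φ (ω y)) = (∑ a, φ a) / M := by
  have hcard : ∀ a : Fin M, ((univ.filter fun ω : J → Fin M => ω y = a).card : ℝ) =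
      (M : ℝ) ^ (univ.erase y).card := by
    intro a
    have h1 : (univ.filter fun ω : J → Fin M => ω y = a) =
        Fintype.piFinset (fun j => if j = y then {a} else univ) := by
      ext ω
      simp only [mem_filter, mem_univ, true_and, Fintype.mem_piFinset]
      constructor
      · intro h j
        by_cases hj : j = y
        · subst hj
          simp [h]
        · simp [hj]
      · intro h
        simpa using h y
    rw [h1, Fintype.card_piFinset, ← mul_prod_erase univ _ (mem_univ y)]
    simp only [if_true, card_singleton, one_mul]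
    rw [prod_congr rfl (g := fun _ => M) (fun j hj => by
      rw [if_neg (ne_of_mem_erase hj)]
      simp)]
    simp
  have h2 : ∑ ω : J → Fin M, φ (ω y) = ∑ a, φ a * (M : ℝ) ^ (univ.erase y).card := by
    rw [← sum_fiberwise univ (fun ω : J → Fin M => ω y)]
    refine sum_congr rfl fun a _ => ?_
    rw [sum_congr rfl (g := fun _ => φ a) (fun ω hω => by rw [(mem_filter.1 hω).2]), sum_const,
      nsmul_eq_mul, hcard a, mul_comm]
  have hMr : (M : ℝ) ≠ 0 := by
    have : (0 : ℝ) < M := by exact_mod_cast hM
    exact this.ne'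
  have h3 : (Fintype.card (J → Fin M) : ℝ) = M * (M : ℝ) ^ (univ.erase y).card := by
    rw [Fintype.card_fun, Fintype.card_fin, card_erase_of_mem (mem_univ y), card_univ]
    push_cast
    rw [← pow_succ']
    congr 1
    have : 0 < Fintype.card J := Fintype.card_pos_iff.2 ⟨y⟩
    omega
  rw [ex, h2, h3, ← sum_mul, mul_comm (M : ℝ), mul_comm (∑ a, φ a), mul_div_mul_left]
  positivity

theorem sum_lt_le {M T : ℕ} : ∑ a : Fin M, (if (a : ℕ) < T then (1 : ℝ) else 0) ≤ T := by
  rw [← sum_filter, sum_const, nsmul_eq_mul, mul_one]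
  have : (univ.filter fun a : Fin M => (a : ℕ) < T).card ≤ T := by
    calc (univ.filter fun a : Fin M => (a : ℕ) < T).card ≤ (range T).card := by
          refine card_le_card_of_injOn (fun a => (a : ℕ)) (fun a ha => ?_) (fun a _ b _ h => Fin.ext h)
          simpa using ha
      _ = T := card_range T
  exact_mod_cast this

theorem pr_inst {Ω : Type u} (i1 i2 : Fintype Ω) (E : Ω → Prop) :
    @pr Ω i1 E = @pr Ω i2 E := by
  rw [Subsingleton.elim i1 i2]

theorem stmt_OFFX : Stmt_OFFX.{u} := by
  intro V _ P M T U f q K s ξ Λ hM hT hq hK hs hΛ hf0 hfK hfs h1 h2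
  have hMr : (0 : ℝ) < M := by exact_mod_cast hM
  set X : Fin P × V → (Fin P × V → Fin M) → ℝ := fun y ω =>
    if y.2 ∈ off U T ω y.1 then f y else 0 with hX
  have hdep : ∀ y ∈ (univ : Finset (Fin P × V)), DepOnI ({y} : Finset (Fin P × V)) (X y) := by
    intro y _ ω ω' h
    have := h y (mem_singleton_self y)
    simp only [hX, off, mem_filter]
    rw [show (y.1, y.2) = y from rfl, this]
  have hex : ∀ y, ex (X y) ≤ q * f y := by
    intro y
    have h3 : ex (X y) ≤ ex (fun ω : Fin P × V → Fin M => f y * (if (ω y : ℕ) < T then (1 : ℝ) else 0)) := by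
      refine ex_mono hM fun ω => ?_
      simp only [hX, off, mem_filter]
      rw [show (y.1, y.2) = y from rfl]
      by_cases h4 : (ω y : ℕ) < T
      · by_cases h5 : y.2 ∈ U
        · simp [h4, h5]
        · simp [h4, h5, hf0 y]
      · simp [h4]
    rw [ex_const_mul, ex_coord hM y (fun a => if (a : ℕ) < T then (1 : ℝ) else 0)] at h3
    refine h3.trans ?_
    rw [mul_comm q]
    refine mul_le_mul_of_nonneg_left ?_ (hf0 y)
    rw [div_le_iff₀ hMr]
    exact sum_lt_le.trans hT
  have hm : ∑ y ∈ (univ : Finset (Fin P × V)), ex (X y) ≤ q * s := by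
    calc ∑ y, ex (X y) ≤ ∑ y, q * f y := sum_le_sum fun y _ => hex y
      _ = q * ∑ y, f y := by rw [mul_sum]
      _ ≤ q * s := mul_le_mul_of_nonneg_left hfs hq.le
  have hqs : 0 < q * s := by positivity
  have key := chern_up hM univ (fun y => ({y} : Finset (Fin P × V))) X (B := K) (m := q * s)
    (s := ξ - q * s) hdep (fun i _ i' _ h => by simpa using h)
    (fun y _ ω => by simp only [hX]; split_ifs; exacts [hf0 y, le_rfl])
    (fun y _ ω => by simp only [hX]; split_ifs; exacts [hfK y, hK.le]) hK hqs hm (by linarith)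
  have h6 : (fun ω : Fin P × V → Fin M => ξ ≤ ∑ y ∈ univ.filter (fun y : Fin P × V =>
      y.2 ∈ off U T ω y.1), f y) = fun ω => q * s + (ξ - q * s) ≤ ∑ y ∈ univ, X y ω := by
    funext ω
    rw [add_sub_cancel, sum_filter]
  rw [h6]
  have hmin : Λ ≤ min ((ξ - q * s) ^ 2 / (4 * K * (q * s))) ((ξ - q * s) / (2 * K)) := ?_
  · refine le_of_eq_of_le ?_ (key.trans (Real.exp_le_exp.2 (neg_le_neg hmin)))
    exact pr_inst _ _ _
  have hξ : 0 < ξ := by linarith
  have hhalf : ξ / 2 ≤ ξ - q * s := by linarith
  have h8 : Λ ≤ (ξ - q * s) / (4 * K) := by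
    rw [le_div_iff₀ (by positivity)]
    nlinarith
  refine le_min ?_ ?_
  · refine h8.trans ?_
    rw [div_le_div_iff₀ (by positivity) (by positivity)]
    have h9 : q * s ≤ ξ - q * s := by linarith
    have h10 : 0 < ξ - q * s := by linarith
    have h11 : (ξ - q * s) * (q * s) ≤ (ξ - q * s) ^ 2 := by nlinarith
    nlinarith
  · refine h8.trans ?_
    rw [div_le_div_iff₀ (by positivity) (by positivity)]
    have h10 : 0 < ξ - q * s := by linarith
    nlinarith

end Pool.Agent.Work.MP_db9399_ow.helper44
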