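import Pool.Agent.Work.MP_db9399_ow.Interface

set_option autoImplicit false

namespace Pool.Agent.Work.MP_db9399_ow.helper44

open Finset Classical

/-- `(n + 1) (a - b) b ^ n ≤ a ^ (n + 1) - b ^ (n + 1) ≤ (n + 1) (a - b) a ^ n` -/
theorem pow_diff {a b : ℝ} (hb : 0 ≤ b) (hab : b ≤ a) (n : ℕ) :
    ((n : ℝ) + 1) * (a - b) * b ^ n ≤ a ^ (n + 1) - b ^ (n + 1) ∧
    a ^ (n + 1) - b ^ (n + 1) ≤ ((n : ℝ) + 1) * (a - b) * a ^ n := by
  have ha : 0 ≤ a := hb.trans hab
  induction n with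
  | zero => constructor <;> simp
  | succ n ih =>
    obtain ⟨ih1, ih2⟩ := ih
    have h1 : b ^ (n + 1) ≤ a ^ (n + 1) := pow_le_pow_left₀ hb hab _
    have h0 : 0 ≤ a - b := sub_nonneg.2 hab
    have h3 : 0 ≤ b ^ (n + 1) := pow_nonneg hb _
    push_cast
    constructor
    · -- a^(n+2) - b^(n+2) = a (a^(n+1) - b^(n+1)) + (a-b) b^(n+1)
      have h2 : a ^ (n + 1 + 1) - b ^ (n + 1 + 1) =
          a * (a ^ (n + 1) - b ^ (n + 1)) + (a - b) * b ^ (n + 1) := by ring
      have h4 : b * (((n : ℝ) + 1) * (a - b) * b ^ n) ≤ a * (a ^ (n + 1) - b ^ (n + 1)) := by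
        have h5 : 0 ≤ a ^ (n + 1) - b ^ (n + 1) := sub_nonneg.2 h1
        calc b * (((n : ℝ) + 1) * (a - b) * b ^ n) ≤ b * (a ^ (n + 1) - b ^ (n + 1)) :=
              mul_le_mul_of_nonneg_left ih1 hb
          _ ≤ _ := mul_le_mul_of_nonneg_right hab h5
      have h6 : ((n : ℝ) + 1 + 1) * (a - b) * b ^ (n + 1) =
          b * (((n : ℝ) + 1) * (a - b) * b ^ n) + (a - b) * b ^ (n + 1) := by ring
      rw [h2, h6]
      linarith
    · have h2 : a ^ (n + 1 + 1) - b ^ (n + 1 + 1) =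
          a * (a ^ (n + 1) - b ^ (n + 1)) + (a - b) * b ^ (n + 1) := by ring
      have h4 : a * (a ^ (n + 1) - b ^ (n + 1)) ≤ a * (((n : ℝ) + 1) * (a - b) * a ^ n) :=
        mul_le_mul_of_nonneg_left ih2 ha
      have h5 : (a - b) * b ^ (n + 1) ≤ (a - b) * a ^ (n + 1) := mul_le_mul_of_nonneg_left h1 h0
      have h6 : ((n : ℝ) + 1 + 1) * (a - b) * a ^ (n + 1) =
          a * (((n : ℝ) + 1) * (a - b) * a ^ n) + (a - b) * a ^ (n + 1) := by ring
      rw [h2, h6]
      linarith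

theorem stmt_PNB : Stmt_PNB := by
  intro M T n hM hT
  have hMr : (0 : ℝ) < M := by exact_mod_cast hM
  have hTr : (T : ℝ) + 1 ≤ M := by exact_mod_cast hT
  set A : ℕ → ℝ := fun t => 1 - (t : ℝ) / M with hA
  have hA0 : ∀ t : ℕ, t ≤ T + 1 → 0 ≤ A t := by
    intro t ht
    have : (t : ℝ) ≤ T + 1 := by exact_mod_cast ht
    simp only [hA]
    rw [sub_nonneg, div_le_one hMr]
    linarith
  have hstep : ∀ t : ℕ, A t - A (t + 1) = 1 / M := by
    intro t
    simp only [hA]
    push_cast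
    field_simp
    ring
  have hanti : ∀ t : ℕ, A (t + 1) ≤ A t := by
    intro t
    have := hstep t
    have h1 : 0 < 1 / (M : ℝ) := by positivity
    linarith
  have hPn : Pn M T n = ∑ t ∈ range T, 1 / (M : ℝ) * A (t + 1) ^ n := by
    unfold Pn
    refine sum_congr rfl fun t _ => ?_
    simp only [hA]
    push_cast
    rfl
  have hn : (0 : ℝ) < (n : ℝ) + 1 := by positivity
  have hsum1 : ((n : ℝ) + 1) * Pn M T n ≤ A 0 ^ (n + 1) - A T ^ (n + 1) := by
    rw [hPn, mul_sum, ← sum_range_sub' (fun t => A t ^ (n + 1)) T]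
    refine sum_le_sum fun t ht => ?_
    rw [mem_range] at ht
    have := (pow_diff (hA0 (t + 1) (by omega)) (hanti t) n).1
    rw [hstep] at this
    linarith
  have hsum2 : A 1 ^ (n + 1) - A (T + 1) ^ (n + 1) ≤ ((n : ℝ) + 1) * Pn M T n := by
    rw [hPn, mul_sum]
    have h1 : A 1 ^ (n + 1) - A (T + 1) ^ (n + 1) =
        ∑ t ∈ range T, (A (t + 1) ^ (n + 1) - A (t + 1 + 1) ^ (n + 1)) := by
      rw [sum_range_sub' (fun t => A (t + 1) ^ (n + 1)) T]
    rw [h1]
    refine sum_le_sum fun t ht => ?_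
    rw [mem_range] at ht
    have := (pow_diff (hA0 (t + 1 + 1) (by omega)) (hanti (t + 1)) n).2
    rw [hstep] at this
    linarith
  refine ⟨?_, ?_, ?_⟩
  · rw [le_div_iff₀ hn]
    have h1 : A 0 ^ (n + 1) = 1 := by simp [hA]
    have h2 : 0 ≤ A T ^ (n + 1) := pow_nonneg (hA0 T (by omega)) _
    rw [h1] at hsum1
    linarith
  · rw [div_le_iff₀ hn]
    have h1 : 1 - ((n : ℝ) + 1) / M ≤ A 1 ^ (n + 1) := by
      have h2 : A 1 = 1 + (-(1 / (M : ℝ))) := by
        simp only [hA]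
        push_cast
        ring
      rw [h2]
      have hM1 : (1 : ℝ) ≤ M := by exact_mod_cast hM
      have := one_add_mul_le_pow (a := -(1 / (M : ℝ))) (by
        have : 1 / (M : ℝ) ≤ 1 := by
          rw [div_le_one hMr]
          exact hM1
        linarith) (n + 1)
      refine le_trans (le_of_eq ?_) this
      push_cast
      ring
    have h3 : A (T + 1) ^ (n + 1) ≤ Real.exp (-((T : ℝ) * ((n : ℝ) + 1) / M)) := by
      have h4 : A (T + 1) ≤ Real.exp (-((T : ℝ) / M)) := by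
        have h5 := Real.add_one_le_exp (-((T : ℝ) / M))
        have h6 : A (T + 1) ≤ A T := hanti T
        have h7 : A T = 1 - (T : ℝ) / M := rfl
        linarith
      calc A (T + 1) ^ (n + 1) ≤ Real.exp (-((T : ℝ) / M)) ^ (n + 1) :=
            pow_le_pow_left₀ (hA0 (T + 1) le_rfl) h4 _
        _ = _ := by
          rw [← Real.exp_nat_mul]
          congr 1
          push_cast
          ring
    linarith
  · rw [hPn]
    refine sum_nonneg fun t ht => ?_
    rw [mem_range] at ht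
    have := pow_nonneg (hA0 (t + 1) (by omega)) n
    positivity

end Pool.Agent.Work.MP_db9399_ow.helper44
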